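import Pool.Agent.Lib.MP_b5021c_nt.KE.H96.Ray
import Pool.Agent.Lib.MP_b5021c_nt.H47.Mut
import Pool.Agent.Lib.MP_b5021c_nt.IfaceE5T

/-!
# Board b5, K EVEN without levels: the ray `R` in the closing at `S` (part of KV_KH)
-/

namespace Pool.Agent.B5.KV.H76

open scoped LaurentPolynomial
open Pool.Agent.B5

/-- `{S, R}` is a face with the four exponents `0, S, R, S + R`: `R` is a ray of the closing, and
the ports outside `S` and `R` are injective modulo `R`. -/
theorem ray_im (hF : FspS) {P L : Type} [Fintype P] [DecidableEq P] [AddCommGroup L]
    [Module.Free ℤ L] [Module.Finite ℤ L] {phi : L →+ (P → ℤ)} {D : AO ℤ L} (fp : FP phi D)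
    {S R : L} {i0 : P} (h0 : co phi i0 S = 1) {R' : Ker (co phi i0)} (hR' : (R' : L) = R)
    (hS : Ray D S) (hR : Ray D R) (hdis : ∀ i, phi R i = 0 ∨ phi S i = 0) {lam : L →+ ℤ}
    (l0 : lam S = 0) (l1 : lam R = 0)
    (hl : ∀ x ∈ supp D, x ≠ 0 → x ≠ S → x ≠ R → x ≠ S + R → 0 < lam x) {eta : (RO ℤ)ˣ}
    {c : RO ℤ} {G : AO ℤ (Ker (co phi i0))} (hcl : cl (co phi i0) S h0 eta D = cst c * G)
    (hc : c ≠ 0) (hne : D.coeff R + (eta : RO ℤ) * D.coeff (R + S) ≠ 0) :
    Ray G R' ∧ ImS (phO phi S i0) R' := by
  have hD := fp.dd
  have hSi : phi S i0 = 1 := h0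
  have hRi : phi R i0 = 0 := by
    rcases hdis i0 with h | h
    · exact h
    · rw [hSi] at h
      exact absurd h one_ne_zero
  have hK0 : ∀ b : Ker (co phi i0), phi (b : L) i0 = 0 := fun b => b.2
  have hco : ∀ b : Ker (co phi i0), c * G.coeff b =
      D.coeff (b : L) + (eta : RO ℤ) * D.coeff ((b : L) + S) := by
    intro b
    rw [← H47.cl_coeff_bin (co phi i0) S h0 eta D (fun x hx => hD.bin x hx i0) b, hcl, cst,
      AddMonoidAlgebra.coeff_single_zero_mul]
  obtain ⟨i2, h2⟩ := KE.exists_port hD hR
  have hRi2 : phi R i2 = 1 := h2
  have hSi2 : phi S i2 = 0 := by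
    rcases hdis i2 with h | h
    · rw [hRi2] at h
      exact absurd h one_ne_zero
    · exact h
  constructor
  · refine ⟨?_, ?_, lam.comp (incl _), ?_, ?_⟩
    · intro h
      apply hne
      have h3 := hco R'
      rw [h, mul_zero, hR'] at h3
      exact h3.symm
    · intro h
      apply hR.2.1
      rw [← hR', h]
      rfl
    · change lam (R' : L) = 0
      rw [hR', l1]
    · intro b hb hb0 hbR
      change 0 < lam (b : L)
      have h3 : c * G.coeff b ≠ 0 := mul_ne_zero hc hb
      rw [hco] at h3
      by_cases h4 : D.coeff (b : L) = 0
      · rw [h4, zero_add] at h3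
        have h5 : D.coeff ((b : L) + S) ≠ 0 := right_ne_zero_of_mul h3
        have h6 := hl ((b : L) + S) h5
          (by
            intro h
            have := congrArg (fun x => phi x i0) h
            simp only [map_add, Pi.add_apply, hK0, hSi, map_zero, Pi.zero_apply] at this
            norm_num at this)
          (by
            intro h
            apply hb0
            apply Subtype.ext
            exact add_eq_right.mp h)
          (by
            intro h
            have := congrArg (fun x => phi x i0) h
            simp only [map_add, Pi.add_apply, hK0, hSi, hRi] at this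
            norm_num at this)
          (by
            intro h
            apply hbR
            apply Subtype.ext
            rw [hR']
            rw [add_comm] at h
            exact add_left_cancel h)
        rwa [map_add, l0, add_zero] at h6
      · exact hl (b : L) h4
          (by
            intro h
            apply hb0
            apply Subtype.ext
            exact h)
          (by
            intro h
            have h5 := hK0 b
            rw [h, hSi] at h5
            exact one_ne_zero h5)
          (by
            intro h
            apply hbR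
            apply Subtype.ext
            rw [hR']
            exact h)
          (by
            intro h
            have h5 := hK0 b
            rw [h, map_add, Pi.add_apply, hSi, hRi] at h5
            norm_num at h5)
  · set K : Submodule ℤ L := Submodule.span ℤ {S, R} with hKd
    have hmS : S ∈ K := Submodule.subset_span (by simp)
    have hmR : R ∈ K := Submodule.subset_span (by simp)
    have hSat : Sat K := by
      intro n x hn hx
      obtain ⟨k, l, hkl⟩ := Submodule.mem_span_pair.mp hx
      have e0 := congrArg (fun y => phi y i0) hkl
      have e2 := congrArg (fun y => phi y i2) hkl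
      simp only [map_add, map_zsmul, Pi.add_apply, Pi.smul_apply, smul_eq_mul, hSi, hRi, hSi2,
        hRi2, mul_one, mul_zero, add_zero, zero_add] at e0 e2
      have h3 : n • (x - (phi x i0 • S + phi x i2 • R)) = 0 := by
        rw [smul_sub, smul_add, smul_smul, smul_smul, ← e0, ← e2, ← hkl, sub_self]
      have h4 := (smul_eq_zero.mp h3).resolve_left hn
      rw [sub_eq_zero.mp h4]
      exact K.add_mem (K.smul_mem _ hmS) (K.smul_mem _ hmR)
    have hlam : ∀ x ∈ K, lam x = 0 := by
      intro x hx
      obtain ⟨k, l, hkl⟩ := Submodule.mem_span_pair.mp hx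
      rw [← hkl, map_add, map_zsmul, map_zsmul, l0, l1, smul_zero, smul_zero, add_zero]
    have hpos : ∀ x ∈ supp D, x ∉ K → 0 < lam x := by
      intro x hx hxK
      refine hl x hx ?_ ?_ ?_ ?_
      · rintro rfl
        exact hxK K.zero_mem
      · rintro rfl
        exact hxK hmS
      · rintro rfl
        exact hxK hmR
      · rintro rfl
        exact hxK (K.add_mem hmS hmR)
    have hrk : rk {x | x ∈ supp D ∧ x ∈ K} = Module.finrank ℤ K := by
      have h3 : Submodule.span ℤ {x | x ∈ supp D ∧ x ∈ K} = K := by
        apply le_antisymm
        · rw [Submodule.span_le]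
          exact fun x hx => hx.2
        · rw [hKd, Submodule.span_le]
          intro x hx
          rcases hx with h | h
          · rw [h]
            exact Submodule.subset_span ⟨hS.1, hmS⟩
          · rw [Set.mem_singleton_iff.mp h]
            exact Submodule.subset_span ⟨hR.1, hmR⟩
      unfold rk
      rw [h3]
    have hfs := hF ℤ P L phi D fp K lam hSat hlam hpos hrk
    intro b hb
    by_contra hcon
    have hbK : (b : L) ∉ K := by
      intro h
      obtain ⟨k, l, hkl⟩ := Submodule.mem_span_pair.mp h
      have e0 := congrArg (fun y => phi y i0) hkl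
      simp only [map_add, map_zsmul, Pi.add_apply, Pi.smul_apply, smul_eq_mul, hSi, hRi,
        mul_one, mul_zero, add_zero, hK0] at e0
      apply hcon
      refine ⟨l, ?_⟩
      apply Subtype.ext
      rw [← hkl, e0, zero_smul, zero_add]
      change l • R = l • (R' : L)
      rw [hR']
    obtain ⟨i, hi, hbi⟩ := hfs (b : L) hbK
    have hi1 := hi S hmS
    have hi2 := hi R hmR
    have h3 := hb i (by
      change (if phi S i = 0 then phi (R' : L) i else 0) = 0
      rw [if_pos hi1, hR', hi2])
    apply hbi
    change (if phi S i = 0 then phi (b : L) i else 0) = 0 at h3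
    rwa [if_pos hi1] at h3

end Pool.Agent.B5.KV.H76
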